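import Pool.Agent.H83.VU.TargetsH

/-!
# Row GP2: the gap for all frequencies from `1 / (R log P)` on
-/

set_option autoImplicit false

open Finset Pool.Agent.H83.VU

namespace Pool.Agent.H72.VU

theorem norm_exp_sub (α β : ℝ) (h1 : 3 / 10 ≤ |α - β|) (h2 : |α - β| ≤ 1 / 2) :
    1 / 5 < ‖Complex.exp ((α : ℂ) * Complex.I) - Complex.exp ((β : ℂ) * Complex.I)‖ := by
  have e1 : Complex.exp ((α : ℂ) * Complex.I) - Complex.exp ((β : ℂ) * Complex.I) =
      Complex.exp ((β : ℂ) * Complex.I) * (Complex.exp (((α - β : ℝ) : ℂ) * Complex.I) - 1) := by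
    rw [mul_sub, ← Complex.exp_add, mul_one]
    congr 2
    push_cast
    ring
  rw [e1, norm_mul, Complex.norm_exp_ofReal_mul_I, one_mul]
  have e2 : |Real.sin (α - β)| ≤ ‖Complex.exp (((α - β : ℝ) : ℂ) * Complex.I) - 1‖ := by
    have h := Complex.abs_im_le_norm (Complex.exp (((α - β : ℝ) : ℂ) * Complex.I) - 1)
    rw [Complex.sub_im, Complex.exp_ofReal_mul_I_im, Complex.one_im, sub_zero] at h
    exact h
  refine lt_of_lt_of_le ?_ e2
  have e3 : ∀ v : ℝ, 3 / 10 ≤ v → v ≤ 1 / 2 → 1 / 5 < Real.sin v := fun v hv hv' => by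
    have h := Real.sin_gt_sub_cube (x := v) (by linarith)
    nlinarith [sq_nonneg v, mul_nonneg (show (0 : ℝ) ≤ v by linarith)
      (show (0 : ℝ) ≤ 1 / 4 - v ^ 2 by nlinarith)]
  rcases abs_cases (α - β) with ⟨h, _⟩ | ⟨h, _⟩
  · rw [h] at h1 h2
    exact (e3 _ h1 h2).trans_le (le_abs_self _)
  · rw [h] at h1 h2
    have := e3 _ h1 h2
    rw [Real.sin_neg] at this
    exact this.trans_le (neg_le_abs _)

theorem mem_PQ {P Q : ℝ} (hP : 0 ≤ P) (hQ : 0 ≤ Q) {p : ℕ} :
    p ∈ PQ P Q ↔ P < p ∧ (p : ℝ) ≤ Q ∧ p.Prime := by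
  unfold PQ
  rw [Finset.mem_filter, Finset.mem_Ioc, Nat.floor_lt hP, Nat.le_floor_iff hQ, and_assoc]

theorem pf_GP2 (hGAP : T_GAP) (hMB : T_MB) : T_GP2 := by
  obtain ⟨b, c, X₀, hc, hg⟩ := hGAP (1 / 2) (by norm_num)
  refine ⟨max b 2, fun R hR => ?_⟩
  have hbR : b ≤ R := (le_max_left _ _).trans hR
  have h2R : 2 ≤ R := (le_max_right _ _).trans hR
  obtain ⟨c₁, y₁, hc₁, hm₁⟩ := hMB (1 / 2) (3 / 5) (by norm_num) (by norm_num)
  obtain ⟨c₂, y₂, hc₂, hm₂⟩ := hMB (9 / 10) 1 (by norm_num) (by norm_num)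
  have htend : Filter.Tendsto (fun X : ℝ => Real.exp (Real.log X ^ (19 / 20 : ℝ))) Filter.atTop
      Filter.atTop :=
    Real.tendsto_exp_atTop.comp ((tendsto_rpow_atTop (by norm_num : (0 : ℝ) < 19 / 20)).comp
      Real.tendsto_log_atTop)
  obtain ⟨X₁, hX₁⟩ := Filter.eventually_atTop.1 (htend.eventually_ge_atTop (max (max y₁ y₂) 3))
  refine ⟨min c (min c₁ c₂ / 100), max X₀ X₁,
    lt_min hc (div_pos (lt_min hc₁ hc₂) (by norm_num)), ?_⟩
  intro X P u hX hP hu1 hu2 z hz
  have hP0 : max (max y₁ y₂) 3 ≤ P := (hX₁ X ((le_max_right _ _).trans hX)).trans hP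
  have hP3 : (3 : ℝ) ≤ P := (le_max_right _ _).trans hP0
  have hPy₁ : y₁ ≤ P := ((le_max_left _ _).trans (le_max_left _ _)).trans hP0
  have hPy₂ : y₂ ≤ P := ((le_max_right _ _).trans (le_max_left _ _)).trans hP0
  have hP00 : (0 : ℝ) < P := by linarith
  have hP1 : (1 : ℝ) ≤ P := by linarith
  have hlog : 0 < Real.log P := Real.log_pos (by linarith)
  have hPR : (0 : ℝ) ≤ P ^ R := by positivity
  have hnn : ∀ p : ℕ, 0 ≤ 1 / (p : ℝ) * ‖ni u p - z‖ ^ 2 := fun p => by positivity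
  by_cases hA : 1 / 2 / Real.log P ≤ |u|
  · refine (min_le_left _ _).trans ((hg X P u ((le_max_left _ _).trans hX) hP hA hu2 z hz).trans ?_)
    refine Finset.sum_le_sum_of_subset_of_nonneg (fun p hp => ?_) (fun p _ _ => hnn p)
    rw [mem_PQ hP00.le (by positivity)] at hp
    rw [mem_PQ hP00.le hPR]
    exact ⟨hp.1, hp.2.1.trans (pow_le_pow_right₀ hP1 hbR), hp.2.2⟩
  · rw [not_le] at hA
    have hRp : (0 : ℝ) < R := by exact_mod_cast (by omega : 0 < R)
    have hu0 : 0 < |u| := lt_of_lt_of_le (by positivity) hu1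
    set y : ℝ := Real.exp (1 / |u|) with hy
    have hy0 : 0 < y := Real.exp_pos _
    have hly : Real.log y = 1 / |u| := Real.log_exp _
    have hly1 : 2 * Real.log P < Real.log y := by
      rw [hly, lt_div_iff₀ hu0]
      rw [div_div, lt_div_iff₀ (by positivity)] at hA
      linarith
    have hly2 : Real.log y ≤ R * Real.log P := by
      rw [hly, div_le_iff₀ hu0]
      rw [div_le_iff₀ (by positivity)] at hu1
      linarith
    have hyPR : y ≤ P ^ R := by
      rw [← Real.log_le_log_iff hy0 (by positivity), Real.log_pow]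
      exact hly2
    have hyhalf : P ≤ y ^ (1 / 2 : ℝ) := by
      rw [← Real.log_le_log_iff hP00 (by positivity), Real.log_rpow hy0]
      linarith
    have hlogy : 0 < Real.log y := by linarith
    have hy1 : 1 ≤ y := by
      rw [← Real.log_le_log_iff one_pos hy0, Real.log_one]; exact hlogy.le
    have hPy : P ≤ y := hyhalf.trans (by
      calc y ^ (1 / 2 : ℝ) ≤ y ^ (1 : ℝ) := Real.rpow_le_rpow_of_exponent_le hy1 (by norm_num)
        _ = y := Real.rpow_one y)
    have huy : |u| * Real.log y = 1 := by rw [hly]; field_simp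
    -- general facts on a block of primes
    have hblock : ∀ (a d : ℝ), 1 / 2 ≤ a → d ≤ 1 → ∀ p ∈ PQ (y ^ a) (y ^ d),
        p ∈ PQ P (P ^ R) ∧ a ≤ |u| * Real.log p ∧ |u| * Real.log p ≤ d ∧ 0 < (p : ℝ) := by
      intro a d ha hd p hp
      rw [mem_PQ (by positivity) (by positivity)] at hp
      obtain ⟨h1, h2, h3⟩ := hp
      have hp0 : (0 : ℝ) < p := by exact_mod_cast h3.pos
      have hle : y ^ (1 / 2 : ℝ) ≤ y ^ a := Real.rpow_le_rpow_of_exponent_le hy1 ha
      have hle' : y ^ d ≤ y := by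
        calc y ^ d ≤ y ^ (1 : ℝ) := Real.rpow_le_rpow_of_exponent_le hy1 hd
          _ = y := Real.rpow_one y
      refine ⟨?_, ?_, ?_, hp0⟩
      · rw [mem_PQ hP00.le hPR]
        exact ⟨(hyhalf.trans hle).trans_lt h1, h2.trans (hle'.trans hyPR), h3⟩
      · have h4 : a * Real.log y ≤ Real.log p := by
          rw [← Real.log_rpow hy0]
          exact Real.log_le_log (by positivity) h1.le
        calc a = |u| * (a * Real.log y) := by rw [mul_left_comm, huy, mul_one]
          _ ≤ |u| * Real.log p := mul_le_mul_of_nonneg_left h4 hu0.le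
      · have h4 : Real.log p ≤ d * Real.log y := by
          rw [← Real.log_rpow hy0]
          exact Real.log_le_log hp0 h2
        calc |u| * Real.log p ≤ |u| * (d * Real.log y) := mul_le_mul_of_nonneg_left h4 hu0.le
          _ = d := by rw [mul_left_comm, huy, mul_one]
    -- a block of positive mass contains a prime with a small value
    have hex : ∀ (a d e : ℝ), 1 / 2 ≤ a → d ≤ 1 → e ≤ ∑ p ∈ PQ (y ^ a) (y ^ d), 1 / (p : ℝ) →
        ∑ p ∈ PQ P (P ^ R), 1 / (p : ℝ) * ‖ni u p - z‖ ^ 2 < e / 100 →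
        ∃ p ∈ PQ (y ^ a) (y ^ d), ‖ni u p - z‖ ≤ 1 / 10 := by
      intro a d e ha hd he hlt
      by_contra hcon
      push Not at hcon
      have h1 : ∑ p ∈ PQ (y ^ a) (y ^ d), 1 / (p : ℝ) * (1 / 100) ≤
          ∑ p ∈ PQ P (P ^ R), 1 / (p : ℝ) * ‖ni u p - z‖ ^ 2 := by
        refine le_trans (Finset.sum_le_sum fun p hp => ?_)
          (Finset.sum_le_sum_of_subset_of_nonneg (fun p hp => (hblock a d ha hd p hp).1)
            (fun p _ _ => hnn p))
        refine mul_le_mul_of_nonneg_left ?_ (by positivity)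
        have := hcon p hp
        nlinarith [norm_nonneg (ni u p - z)]
      rw [← Finset.sum_mul] at h1
      linarith
    by_contra hcon
    rw [not_le] at hcon
    have hlt : ∑ p ∈ PQ P (P ^ R), 1 / (p : ℝ) * ‖ni u p - z‖ ^ 2 < min c₁ c₂ / 100 :=
      hcon.trans_le (min_le_right _ _)
    obtain ⟨p, hp, hpz⟩ := hex (1 / 2) (3 / 5) c₁ le_rfl (by norm_num) (hm₁ y (hPy₁.trans hPy))
      (hlt.trans_le (div_le_div_of_nonneg_right (min_le_left _ _) (by norm_num)))
    obtain ⟨q, hq, hqz⟩ := hex (9 / 10) 1 c₂ (by norm_num) le_rfl (hm₂ y (hPy₂.trans hPy))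
      (hlt.trans_le (div_le_div_of_nonneg_right (min_le_right _ _) (by norm_num)))
    obtain ⟨-, hp1, hp2, hp0⟩ := hblock _ _ le_rfl (by norm_num) p hp
    obtain ⟨-, hq1, hq2, hq0⟩ := hblock _ _ (by norm_num) le_rfl q hq
    have hnn' : 0 ≤ Real.log q - Real.log p := by
      have : |u| * Real.log p ≤ |u| * Real.log q := by linarith
      have := le_of_mul_le_mul_left this hu0
      linarith
    have habs : |u * Real.log q - u * Real.log p| = |u| * Real.log q - |u| * Real.log p := by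
      rw [← mul_sub, abs_mul, abs_of_nonneg hnn', mul_sub]
    have h6 := norm_exp_sub (u * Real.log q) (u * Real.log p)
      (by rw [habs]; linarith) (by rw [habs]; linarith)
    have h7 : ‖ni u q - ni u p‖ ≤ 1 / 5 := by
      calc ‖ni u q - ni u p‖ = ‖(ni u q - z) - (ni u p - z)‖ := by congr 1; ring
        _ ≤ ‖ni u q - z‖ + ‖ni u p - z‖ := norm_sub_le _ _
        _ ≤ 1 / 5 := by linarith
    exact absurd h6 (not_lt.2 h7)

end Pool.Agent.H72.VU
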